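import Mathlib
import Pool.Agent.Helper14.LE.All

set_option autoImplicit false

open InnerProductSpace Laplacian

namespace Pool.Agent.Results.MP_08fe4e_an.NontrivialSolution

/-- `Ω` is a bounded strictly star-shaped domain about `0` with smooth boundary: `Ω = {F < 1}`, where
`F` is continuous, positively homogeneous of degree one, and positive and `C^∞` away from `0`.
Redundantly: `Ω` is open and bounded, contains `0`, contains `t x` for `x` in the closure and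
`0 ≤ t < 1`, and `x · ∇F(x) > 0` on the boundary. -/
structure StrictlyStarShaped {N : ℕ} (Ω : Set (EuclideanSpace ℝ (Fin N)))
    (F : EuclideanSpace ℝ (Fin N) → ℝ) : Prop where
  eq : Ω = {x | F x < 1}
  cont : Continuous F
  smooth : ∀ x, x ≠ 0 → ContDiffAt ℝ (⊤ : ℕ∞) F x
  pos : ∀ x, x ≠ 0 → 0 < F x
  hom : ∀ t : ℝ, 0 ≤ t → ∀ x, F (t • x) = t * F x
  isOpen : IsOpen Ω
  bounded : Bornology.IsBounded Ω
  zero : (0 : EuclideanSpace ℝ (Fin N)) ∈ Ω
  star : ∀ x ∈ closure Ω, ∀ t : ℝ, 0 ≤ t → t < 1 → t • x ∈ Ω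
  normal : ∀ x ∈ frontier Ω, F x = 1 ∧ 0 < fderiv ℝ F x x

/-- Classical solutions of the weighted Lane-Emden system
`-Δu = |x|^β |v|^(q-1) v`, `-Δv = |x|^α |u|^(p-1) u` in `Ω`, `u = v = 0` on the boundary. -/
structure IsSolution {N : ℕ} (α β p q : ℝ) (Ω : Set (EuclideanSpace ℝ (Fin N)))
    (u v : EuclideanSpace ℝ (Fin N) → ℝ) : Prop where
  u_C2 : ContDiffOn ℝ 2 u Ω
  v_C2 : ContDiffOn ℝ 2 v Ω
  u_cont : ContinuousOn u (closure Ω)
  v_cont : ContinuousOn v (closure Ω)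
  u_zero : ∀ x ∈ frontier Ω, u x = 0
  v_zero : ∀ x ∈ frontier Ω, v x = 0
  eq_u : ∀ x ∈ Ω, -(Δ u) x = ‖x‖ ^ β * |v x| ^ (q - 1) * v x
  eq_v : ∀ x ∈ Ω, -(Δ v) x = ‖x‖ ^ α * |u x| ^ (p - 1) * u x

/-- Q1 is false: a nontrivial (classical, sign-changing) solution exists for `N = 6`, `q = 1`,
`β = 0`, `α = p - 5` and some (large, odd) `p` in a smooth bounded domain of `ℝ⁶` that is strictly
star-shaped about `0`. -/
theorem result : ∃ (p : ℕ) (α β q : ℝ) (Ω : Set (EuclideanSpace ℝ (Fin 6)))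
    (F u v : EuclideanSpace ℝ (Fin 6) → ℝ),
    Odd p ∧ 20 ≤ p ∧ α = p - 5 ∧ β = 0 ∧ q = 1 ∧ 0 ≤ α ∧ 0 ≤ β ∧ 0 < (p : ℝ) ∧ 0 < q ∧
    (6 + α) / ((p : ℝ) + 1) + (6 + β) / (q + 1) ≤ 6 - 2 ∧
    StrictlyStarShaped Ω F ∧ IsSolution α β (p : ℝ) q Ω u v ∧ ∃ x ∈ Ω, u x ≠ 0 := by
  obtain ⟨p, Ω, F, u, v, hodd, hp, hS, hL, hne⟩ := LEP.st_FINAL_all
  have hp20 : (20 : ℝ) ≤ p := by exact_mod_cast hp
  refine ⟨p, p - 5, 0, 1, Ω, F, u, v, hodd, hp, rfl, rfl, rfl, by linarith, le_rfl, by linarith,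
    one_pos, ?_, ?_, ?_, hne⟩
  · have hp1 : (0 : ℝ) < (p : ℝ) + 1 := by positivity
    have h1 : (6 + ((p : ℝ) - 5)) / ((p : ℝ) + 1) = 1 := by
      rw [div_eq_one_iff_eq hp1.ne']; ring
    rw [h1]; norm_num
  · have hF0 : F 0 = 0 := by
      have := hS.hom 0 le_rfl 0
      simpa using this
    have hcl : ∀ x ∈ closure Ω, F x ≤ 1 := by
      intro x hx
      rw [hS.eq] at hx
      have : closure {x | F x < 1} ⊆ {x | F x ≤ 1} :=
        closure_minimal (fun y (hy : F y < 1) => (hy.le : F y ≤ 1))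
          (isClosed_le hS.cont continuous_const)
      exact this hx
    have hop : IsOpen Ω := by
      rw [hS.eq]; exact isOpen_lt hS.cont continuous_const
    refine ⟨hS.eq, hS.cont, hS.smooth, hS.pos, hS.hom, hop, hS.bdd, ?_, ?_, ?_⟩
    · rw [hS.eq]
      show F 0 < 1
      rw [hF0]; exact zero_lt_one
    · intro x hx t ht0 ht1
      rw [hS.eq]
      show F (t • x) < 1
      rw [hS.hom t ht0]
      have h1 := hcl x hx
      rcases eq_or_lt_of_le ht0 with h | h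
      · rw [← h]; simp
      · have : t * F x ≤ t * 1 := mul_le_mul_of_nonneg_left h1 ht0
        linarith
    · intro x hx
      refine ⟨le_antisymm (hcl x (frontier_subset_closure hx)) ?_, hS.strict x hx⟩
      by_contra hlt
      push Not at hlt
      have hxΩ : x ∈ Ω := by rw [hS.eq]; exact hlt
      rw [hop.frontier_eq] at hx
      exact hx.2 hxΩ
  · exact ⟨hL.cu, hL.cv, hL.bu, hL.bv, hL.zu, hL.zv, hL.eu, hL.ev⟩

end Pool.Agent.Results.MP_08fe4e_an.NontrivialSolution
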